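import Pool.Agent.H430R2.PermCubes.Upper

set_option autoImplicit false

/-!
# A divisibility obstruction to the extremal bound

If the general bound `n + m - 1` were attained, the agreement sets would form Steiner systems
`S(p - 1, p, n + p - 2)` for every `p < m`, which is impossible for a prime `p` dividing `n - 1`.
-/

namespace Pool.Agent.H72R3.VC

open Pool.Agent.H430R2.PermCubes

variable {m n k : ℕ} {C : Fin k → (Fin m → Fin n) → Fin n}

theorem choose_not_dvd {n p : ℕ} (hp : p.Prime) (hn : 2 ≤ n) (hpn : p ∣ n - 1) :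
    ¬ p ∣ (n + p - 2).choose (p - 1) := by
  have : Fact p.Prime := ⟨hp⟩
  obtain ⟨c, hc⟩ := hpn
  have hp2 := hp.two_le
  have hN : n + p - 2 = p * c + (p - 1) := by omega
  have h := Choose.choose_modEq_choose_mod_mul_choose_div_nat (n := n + p - 2) (k := p - 1)
    (p := p)
  have h1 : (n + p - 2) % p = p - 1 := by
    rw [hN, Nat.mul_add_mod]
    exact Nat.mod_eq_of_lt (by omega)
  have h2 : (p - 1) % p = p - 1 := Nat.mod_eq_of_lt (by omega)
  have h3 : (p - 1) / p = 0 := Nat.div_eq_of_lt (by omega)
  rw [h1, h2, h3, Nat.choose_self, Nat.choose_zero_right, mul_one] at h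
  intro hd
  have h4 := (Nat.modEq_zero_iff_dvd.2 hd).symm.trans h
  have h5 : p ∣ 1 := (Nat.modEq_zero_iff_dvd.1 h4.symm)
  have := Nat.le_of_dvd one_pos h5
  omega

/-- **The prime bound**: at most `n + m - 2` cubes if some prime `p < m` divides `n - 1`. -/
theorem IsArray.le_prime (h : IsArray m n k C) (hn : 2 ≤ n) {p : ℕ} (hp : p.Prime)
    (hpm : p < m) (hpn : p ∣ n - 1) : k ≤ n + m - 2 := by
  classical
  have hp2 := hp.two_le
  by_contra hcon
  push Not at hcon
  have h0 : (0 : ℕ) < n := by omega
  let x₀ : Fin m → Fin n := fun _ => ⟨0, h0⟩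
  have : Nontrivial (Fin n) := Fin.nontrivial_iff_two_le.2 hn
  obtain ⟨U, -, hU⟩ := Finset.exists_subset_card_eq
    (show m - (p + 1) ≤ (Finset.univ : Finset (Fin k)).card by simp; omega)
  have hUc : (Uᶜ : Finset (Fin k)).card = k - (m - (p + 1)) := by
    rw [Finset.card_compl, Fintype.card_fin, hU]
  obtain ⟨W, hWU, hW⟩ := Finset.exists_subset_card_eq
    (show n + p ≤ (Uᶜ : Finset (Fin k)).card by rw [hUc]; omega)
  have hWnU : ∀ c ∈ W, c ∉ U := fun c hc => by simpa using hWU hc
  obtain ⟨a, ha⟩ : W.Nonempty := by rw [← Finset.card_pos]; omega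
  obtain ⟨b, hb⟩ : (W.erase a).Nonempty := by
    rw [← Finset.card_pos, Finset.card_erase_of_mem ha]; omega
  have hbW := Finset.mem_of_mem_erase hb
  have hba : b ≠ a := Finset.ne_of_mem_erase hb
  obtain ⟨s, hs⟩ := exists_ne (C a x₀)
  obtain ⟨t, ht⟩ := exists_ne (C b x₀)
  set V := (W.erase a).erase b with hV
  have hVc : V.card = n + p - 2 := by
    rw [hV, Finset.card_erase_of_mem hb, Finset.card_erase_of_mem ha]; omega
  have hVW : ∀ c ∈ V, c ∈ W ∧ c ≠ a ∧ c ≠ b := by
    intro c hc
    have h1 := Finset.mem_of_mem_erase hc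
    exact ⟨Finset.mem_of_mem_erase h1, Finset.ne_of_mem_erase h1, Finset.ne_of_mem_erase hc⟩
  -- the set of coordinates fixed by `T`
  have hfix : ∀ T ⊆ V, T.card = p - 1 → (insert a (insert b (T ∪ U))).card = m := by
    intro T hT hTc
    have hdis : Disjoint T U := by
      rw [Finset.disjoint_left]
      intro c hc
      exact hWnU c (hVW c (hT hc)).1
    rw [Finset.card_insert_of_notMem, Finset.card_insert_of_notMem,
      Finset.card_union_of_disjoint hdis, hTc, hU]
    · omega
    · intro hb'
      rcases Finset.mem_union.1 hb' with h' | h'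
      · exact (hVW b (hT h')).2.2 rfl
      · exact hWnU b hbW h'
    · intro ha'
      rcases Finset.mem_insert.1 ha' with h' | h'
      · exact hba h'.symm
      rcases Finset.mem_union.1 h' with h' | h'
      · exact (hVW a (hT h')).2.1 rfl
      · exact hWnU a ha h'
  have hex : ∀ T ∈ V.powersetCard (p - 1), ∃ y, C a y = s ∧ C b y = t ∧
      (∀ c ∈ T, C c y = C c x₀) ∧ ∀ i ∈ U, C i y = C i x₀ := by
    intro T hT
    obtain ⟨hTV, hTc⟩ := Finset.mem_powersetCard.1 hT
    obtain ⟨y, hy⟩ := h.exists_point _ (hfix T hTV hTc)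
      (fun i => if i = a then s else if i = b then t else C i x₀)
    refine ⟨y, by simpa using hy a (by simp), by simpa [hba] using hy b (by simp), ?_, ?_⟩
    · intro c hc
      obtain ⟨-, hca, hcb⟩ := hVW c (hTV hc)
      simpa [hca, hcb] using hy c (by simp [hc])
    · intro i hi
      have hia : i ≠ a := by rintro rfl; exact hWnU _ ha hi
      have hib : i ≠ b := by rintro rfl; exact hWnU _ hbW hi
      simpa [hia, hib] using hy i (by simp [hi])
  choose! r hr1 hr2 hr3 hr4 using hex
  -- uniqueness
  have huniq : ∀ T ∈ V.powersetCard (p - 1), ∀ y, C a y = s → C b y = t →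
      (∀ c ∈ T, C c y = C c x₀) → (∀ i ∈ U, C i y = C i x₀) → r T = y := by
    intro T hT y h1 h2 h3 h4
    obtain ⟨hTV, hTc⟩ := Finset.mem_powersetCard.1 hT
    refine h.eq_of_agree _ (hfix T hTV hTc).ge ?_
    intro i hi
    rcases Finset.mem_insert.1 hi with rfl | hi
    · rw [hr1 T hT, h1]
    rcases Finset.mem_insert.1 hi with rfl | hi
    · rw [hr2 T hT, h2]
    rcases Finset.mem_union.1 hi with hi | hi
    · rw [hr3 T hT i hi, h3 i hi]
    · rw [hr4 T hT i hi, h4 i hi]
  -- the blocks
  let B : (Fin m → Fin n) → Finset (Fin k) := fun y => V.filter (fun c => C c y = C c x₀)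
  have hBc : ∀ T ∈ V.powersetCard (p - 1), (B (r T)).card = p := by
    intro T hT
    obtain ⟨hTV, hTc⟩ := Finset.mem_powersetCard.1 hT
    have hne : r T ≠ x₀ := by
      intro h'
      exact hs (by rw [← hr1 T hT, h'])
    apply le_antisymm
    · have h1 : B (r T) ∪ U ⊆ agree C (r T) x₀ := by
        intro i hi
        rcases Finset.mem_union.1 hi with hi | hi
        · exact Finset.mem_filter.2 ⟨Finset.mem_univ _, (Finset.mem_filter.1 hi).2⟩
        · exact Finset.mem_filter.2 ⟨Finset.mem_univ _, hr4 T hT i hi⟩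
      have h2 := (Finset.card_le_card h1).trans_lt (h.card_agree hne)
      rw [Finset.card_union_of_disjoint] at h2
      · omega
      · rw [Finset.disjoint_left]
        intro c hc
        exact hWnU c (hVW c (Finset.mem_filter.1 hc).1).1
    · have hdis : Disjoint T U := by
        rw [Finset.disjoint_left]
        intro c hc
        exact hWnU c (hVW c (hTV hc)).1
      have hTW : T ⊆ W := fun c hc => (hVW c (hTV hc)).1
      obtain ⟨d, hd, hd'⟩ := h.agree_more (by omega) (T ∪ U) (W \ T)
        (by rw [Finset.card_union_of_disjoint hdis]; omega)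
        (by
          rw [Finset.disjoint_left]
          intro i hi hi'
          obtain ⟨hiW, hiT⟩ := Finset.mem_sdiff.1 hi'
          rcases Finset.mem_union.1 hi with hi | hi
          · exact hiT hi
          · exact hWnU i hiW hi)
        (by rw [Finset.card_sdiff_of_subset hTW]; omega) hne
        (by
          intro i hi
          rcases Finset.mem_union.1 hi with hi | hi
          · exact hr3 T hT i hi
          · exact hr4 T hT i hi)
      obtain ⟨hdW, hdT⟩ := Finset.mem_sdiff.1 hd
      have hdV : d ∈ V := by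
        rw [hV, Finset.mem_erase, Finset.mem_erase]
        refine ⟨?_, ?_, hdW⟩
        · rintro rfl
          exact ht (by rw [← hr2 T hT, hd'])
        · rintro rfl
          exact hs (by rw [← hr1 T hT, hd'])
      have hsub : insert d T ⊆ B (r T) := by
        intro i hi
        rcases Finset.mem_insert.1 hi with rfl | hi
        · exact Finset.mem_filter.2 ⟨hdV, hd'⟩
        · exact Finset.mem_filter.2 ⟨hTV hi, hr3 T hT i hi⟩
      have := Finset.card_le_card hsub
      rw [Finset.card_insert_of_notMem hdT, hTc] at this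
      omega
  have hfib : ∀ X ∈ (V.powersetCard (p - 1)).image (fun T => B (r T)),
      ((V.powersetCard (p - 1)).filter (fun T => B (r T) = X)).card = p := by
    intro X hX
    obtain ⟨T, hT, rfl⟩ := Finset.mem_image.1 hX
    have heq : (V.powersetCard (p - 1)).filter (fun T' => B (r T') = B (r T)) =
        (B (r T)).powersetCard (p - 1) := by
      ext T'
      rw [Finset.mem_filter, Finset.mem_powersetCard, Finset.mem_powersetCard]
      constructor
      · rintro ⟨⟨hT'V, hT'c⟩, he⟩
        refine ⟨?_, hT'c⟩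
        rw [← he]
        intro i hi
        exact Finset.mem_filter.2 ⟨hT'V hi,
          hr3 T' (Finset.mem_powersetCard.2 ⟨hT'V, hT'c⟩) i hi⟩
      · rintro ⟨hT'B, hT'c⟩
        have hT'V : T' ⊆ V := hT'B.trans (Finset.filter_subset _ _)
        refine ⟨⟨hT'V, hT'c⟩, ?_⟩
        rw [huniq T' (Finset.mem_powersetCard.2 ⟨hT'V, hT'c⟩) (r T) (hr1 T hT) (hr2 T hT)
          (fun c hc => (Finset.mem_filter.1 (hT'B hc)).2) (hr4 T hT)]
    rw [heq, Finset.card_powersetCard, hBc T hT]
    rw [Nat.choose_symm (by omega : 1 ≤ p), Nat.choose_one_right]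
  have hsum := Finset.card_eq_sum_card_image (fun T => B (r T)) (V.powersetCard (p - 1))
  rw [Finset.sum_congr rfl hfib, Finset.sum_const, smul_eq_mul, Finset.card_powersetCard,
    hVc] at hsum
  exact choose_not_dvd hp hn hpn ⟨_, by rw [hsum, mul_comm]⟩

end Pool.Agent.H72R3.VC
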